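import Mathlib

set_option autoImplicit false

namespace Pool.Agent.Results.MP_387adc_co.NotUniversal

open Polynomial

theorem result (s t : ℝ) (hs : 1 < s) (hst : s < t) :
    ∃ (A : Type) (_ : Preorder A), Countable A ∧
      ¬ ∃ f : A → ℚ[X], (∀ a i, (f a).coeff i = 0 ∨ (f a).coeff i = 1 ∨ 2 ≤ (f a).coeff i) ∧
        ∀ a a', a ≤ a' ↔ ∀ x ∈ Set.Icc s t, aeval x (f a) ≤ aeval x (f a') := by
  refine ⟨WithTop (Finset ℕ), inferInstance, inferInstanceAs (Countable (Option (Finset ℕ))), ?_⟩
  rintro ⟨f, hc, hf⟩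
  have ht : 1 < t := hs.trans hst
  obtain ⟨d, hd⟩ := pow_unbounded_of_one_lt (aeval t (f ⊤)) ht
  have hdeg : ∀ a, (f a).natDegree < d + 1 := by
    intro a
    by_contra hlt
    have h0 : f a ≠ 0 := by
      intro h
      rw [h] at hlt
      simp at hlt
    have h1 : aeval t (f a) ≤ aeval t (f ⊤) := (hf a ⊤).1 le_top t ⟨hst.le, le_rfl⟩
    have h2 : (f a).coeff (f a).natDegree ≠ 0 := leadingCoeff_ne_zero.mpr h0
    have h3 : (1 : ℚ) ≤ (f a).coeff (f a).natDegree := by
      rcases hc a (f a).natDegree with h | h | h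
      · exact absurd h h2
      · exact h.ge
      · linarith
    have h4 : (f a).coeff (f a).natDegree • t ^ (f a).natDegree ≤ aeval t (f a) := by
      rw [aeval_eq_sum_range]
      refine Finset.single_le_sum (f := fun i => (f a).coeff i • t ^ i) (fun i _ => ?_)
        (Finset.mem_range.mpr (Nat.lt_succ_self _))
      have : (0 : ℚ) ≤ (f a).coeff i := by
        rcases hc a i with h | h | h <;> linarith
      exact smul_nonneg this (by positivity)
    have h5 : t ^ d ≤ t ^ (f a).natDegree := pow_le_pow_right₀ ht.le (by omega)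
    have h6 : (1 : ℝ) ≤ ((f a).coeff (f a).natDegree : ℚ) := by exact_mod_cast h3
    rw [Rat.smul_def] at h4
    have h7 : 0 < t ^ (f a).natDegree := by positivity
    nlinarith
  have hx : ∀ i : Fin (d + 2), ∃ x ∈ Set.Icc s t,
      aeval x (f (((Finset.range (d + 2)).erase i : Finset ℕ) : WithTop (Finset ℕ))) <
      aeval x (f (({i.val} : Finset ℕ) : WithTop (Finset ℕ))) := by
    intro i
    by_contra hn
    push Not at hn
    have := (hf _ _).2 hn
    rw [WithTop.coe_le_coe] at this
    simpa using this (Finset.mem_singleton_self _)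
  choose x hx1 hx2 using hx
  have hdep : ¬ LinearIndependent ℝ (fun (i : Fin (d + 2)) (k : Fin (d + 1)) => x i ^ k.val) := by
    intro h
    have := h.fintype_card_le_finrank
    simp at this
  obtain ⟨c, hc1, j, hj⟩ := Fintype.not_linearIndependent_iff.mp hdep
  have hzero : ∀ a, ∑ i, c i * aeval (x i) (f a) = 0 := by
    intro a
    simp only [aeval_eq_sum_range' (hdeg a), Finset.mul_sum]
    rw [Finset.sum_comm]
    refine Finset.sum_eq_zero fun k hk => ?_
    have := congrFun hc1 ⟨k, Finset.mem_range.mp hk⟩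
    simp only [Finset.sum_apply, Pi.smul_apply, smul_eq_mul, Pi.zero_apply] at this
    simp only [Rat.smul_def]
    calc ∑ i, c i * (((f a).coeff k : ℚ) * x i ^ k)
        = ((f a).coeff k : ℚ) * ∑ i, c i * x i ^ k := by
          rw [Finset.mul_sum]; exact Finset.sum_congr rfl fun i _ => by ring
      _ = 0 := by rw [this, mul_zero]
  have key : ∀ (S T : Finset (Fin (d + 2))) (i : Fin (d + 2)), i ∈ S → i ∉ T →
      aeval (x i) (f ((T.image Fin.val : Finset ℕ) : WithTop (Finset ℕ))) <
      aeval (x i) (f ((S.image Fin.val : Finset ℕ) : WithTop (Finset ℕ))) := by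
    intro S T i h1 h2
    refine lt_of_le_of_lt ((hf _ _).1 ?_ _ (hx1 i)) (lt_of_lt_of_le (hx2 i) ((hf _ _).1 ?_ _ (hx1 i)))
    · rw [WithTop.coe_le_coe]
      intro y hy
      obtain ⟨z, hz, rfl⟩ := Finset.mem_image.mp hy
      exact Finset.mem_erase.mpr ⟨fun h => h2 (Fin.ext h ▸ hz), Finset.mem_range.mpr z.2⟩
    · rw [WithTop.coe_le_coe]
      exact Finset.singleton_subset_iff.mpr (Finset.mem_image_of_mem _ h1)
  let S : Finset (Fin (d + 2)) := Finset.univ.filter fun i => 0 < c i
  have h1 := hzero ((S.image Fin.val : Finset ℕ) : WithTop (Finset ℕ))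
  have h2 := hzero ((Sᶜ.image Fin.val : Finset ℕ) : WithTop (Finset ℕ))
  have h3 : ∀ i, c i ≠ 0 → c i * aeval (x i) (f ((Sᶜ.image Fin.val : Finset ℕ) : WithTop (Finset ℕ))) <
      c i * aeval (x i) (f ((S.image Fin.val : Finset ℕ) : WithTop (Finset ℕ))) := by
    intro i hi
    rcases lt_or_gt_of_ne hi with h | h
    · exact mul_lt_mul_of_neg_left (key Sᶜ S i (by simp [S, h.le]) (by simp [S, h.le])) h
    · exact mul_lt_mul_of_pos_left (key S Sᶜ i (by simp [S, h]) (by simp [S, h])) h
  have h5 : ∀ i, c i * aeval (x i) (f ((Sᶜ.image Fin.val : Finset ℕ) : WithTop (Finset ℕ))) ≤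
      c i * aeval (x i) (f ((S.image Fin.val : Finset ℕ) : WithTop (Finset ℕ))) := by
    intro i
    by_cases hi : c i = 0
    · simp [hi]
    · exact (h3 i hi).le
  have h4 := Finset.sum_lt_sum (s := Finset.univ) (fun i _ => h5 i)
    ⟨j, Finset.mem_univ _, h3 j hj⟩
  linarith

end Pool.Agent.Results.MP_387adc_co.NotUniversal
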